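import Pool.Agent.Helper14.WLK.Lf
import Pool.Agent.Helper57.TA.Alg
import Pool.Agent.Helper57.TA.Dsc

/-! HAT, algebra: polynomials in horizontal and vertical variables, their parts, triangular inversion with coefficients
in a subring. -/

set_option autoImplicit false
set_option linter.unusedSectionVars false

namespace Pool.Agent.Helper69.HAT

open Finset Pool.Agent.Helper14.WLK

noncomputable section

section alg

variable {A B : Type*} [CommRing A] [CommRing B] {σ τ : Type*} {β κ : Type*}

/-- the part of a polynomial in the image of injective monomials -/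
theorem exists_part (f : σ → τ) (hf : Function.Injective f) (P : MvPolynomial τ A) :
    ∃ Q : MvPolynomial σ A, ∀ n, Q.coeff n = P.coeff (n.mapDomain f) := by
  classical
  have hF : Function.Injective (Finsupp.mapDomain f : (σ →₀ ℕ) → (τ →₀ ℕ)) := Finsupp.mapDomain_injective hf
  refine ⟨∑ n ∈ P.support.preimage (Finsupp.mapDomain f) hF.injOn,
    MvPolynomial.monomial n (P.coeff (n.mapDomain f)), fun n => ?_⟩
  rw [MvPolynomial.coeff_sum]
  simp only [MvPolynomial.coeff_monomial]
  rw [Finset.sum_ite_eq']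
  split_ifs with h
  · rfl
  · rw [Finset.mem_preimage, MvPolynomial.notMem_support_iff] at h
    exact h.symm

/-- the rest has no monomials in the image -/
theorem part_rest_in {f : σ → τ} (hf : Function.Injective f) {P : MvPolynomial τ A} {Q : MvPolynomial σ A}
    (hQ : ∀ n, Q.coeff n = P.coeff (n.mapDomain f)) (n : σ →₀ ℕ) :
    (P - MvPolynomial.rename f Q).coeff (n.mapDomain f) = 0 := by
  rw [MvPolynomial.coeff_sub, MvPolynomial.coeff_rename_mapDomain _ hf, hQ, sub_self]

theorem coeff_rename_out {f : σ → τ} {Q : MvPolynomial σ A} {m : τ →₀ ℕ}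
    (hm : ∀ n : σ →₀ ℕ, n.mapDomain f ≠ m) : (MvPolynomial.rename f Q).coeff m = 0 :=
  MvPolynomial.coeff_rename_eq_zero _ _ _ fun u hu => absurd hu (hm u)

theorem part_rest_out {f : σ → τ} {P : MvPolynomial τ A} {Q : MvPolynomial σ A} {m : τ →₀ ℕ}
    (hm : ∀ n : σ →₀ ℕ, n.mapDomain f ≠ m) : (P - MvPolynomial.rename f Q).coeff m = P.coeff m := by
  rw [MvPolynomial.coeff_sub, coeff_rename_out hm, sub_zero]

/-- evaluation depends only on the variables which occur -/
theorem eval_vars {P : MvPolynomial σ A} {x y : σ → A} (h : ∀ i ∈ P.vars, x i = y i) :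
    MvPolynomial.eval x P = MvPolynomial.eval y P :=
  MvPolynomial.eval₂Hom_congr' rfl (fun i h1 _ => h i h1) rfl

/-- lower vertical variables -/
def Lw (w : κ → ℝ) (P : κ → MvPolynomial (β ⊕ κ) A) : Prop := ∀ j l, Sum.inr l ∈ (P j).vars → w l < w j

theorem Lw_iff {w : κ → ℝ} {P : κ → MvPolynomial (β ⊕ κ) A} :
    Lw w P ↔ ∀ j n, (P j).coeff n ≠ 0 → ∀ l, n (Sum.inr l) ≠ 0 → w l < w j := by
  constructor
  · intro h j n hn l hl
    apply h j l
    rw [MvPolynomial.mem_vars_iff_mem_support]
    exact ⟨n, MvPolynomial.mem_support_iff.mpr hn, Finsupp.mem_support_iff.mpr hl⟩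
  · intro h j l hl
    rw [MvPolynomial.mem_vars_iff_mem_support] at hl
    obtain ⟨n, hn, hl⟩ := hl
    exact h j n (MvPolynomial.mem_support_iff.mp hn) l (Finsupp.mem_support_iff.mp hl)

theorem vars_sub_mem {P Q : MvPolynomial σ A} {i : σ} (h : i ∈ (P - Q).vars) : i ∈ P.vars ∨ i ∈ Q.vars := by
  classical
  rw [sub_eq_add_neg] at h
  have h1 := Finset.mem_union.mp (MvPolynomial.vars_add_subset P (-Q) h)
  rwa [MvPolynomial.vars_neg] at h1

theorem vars_add_mem {P Q : MvPolynomial σ A} {i : σ} (h : i ∈ (P + Q).vars) : i ∈ P.vars ∨ i ∈ Q.vars := by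
  classical
  exact Finset.mem_union.mp (MvPolynomial.vars_add_subset P Q h)

theorem vars_X_mem {i j : σ} (h : i ∈ (MvPolynomial.X j : MvPolynomial σ A).vars) : i = j := by
  rcases subsingleton_or_nontrivial A with hA | hA
  · have h3 : (MvPolynomial.X j : MvPolynomial σ A) = 0 := Subsingleton.elim _ _
    rw [h3, MvPolynomial.vars_0] at h
    exact absurd h (Finset.notMem_empty _)
  · rw [MvPolynomial.vars_X, Finset.mem_singleton] at h
    exact h

theorem vars_of_coeff {P Q : MvPolynomial σ A} (h : ∀ m, P.coeff m = 0 → Q.coeff m = 0) {i : σ} (hi : i ∈ Q.vars) :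
    i ∈ P.vars := by
  rw [MvPolynomial.mem_vars_iff_mem_support] at hi ⊢
  obtain ⟨n, hn, hi⟩ := hi
  refine ⟨n, ?_, hi⟩
  rw [MvPolynomial.mem_support_iff] at hn ⊢
  exact fun h1 => hn (h n h1)

theorem vars_aeval_mem {φ : σ → MvPolynomial τ A} {P : MvPolynomial σ A} {i : τ}
    (h : i ∈ (MvPolynomial.aeval φ P : MvPolynomial τ A).vars) : ∃ a ∈ P.vars, i ∈ (φ a).vars := by
  classical
  have h1 : i ∈ (MvPolynomial.bind₁ φ P).vars := h
  obtain ⟨a, ha, h2⟩ := MvPolynomial.mem_vars_bind₁ _ _ h1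
  exact ⟨a, ha, h2⟩

/-- coefficients which depend on the monomial -/
theorem exists_coeffs_dep (P : MvPolynomial σ A) (R : (σ →₀ ℕ) → A → A → Prop) (h0 : ∀ m, R m 0 0)
    (h : ∀ m, ∃ g, R m (P.coeff m) g) :
    ∃ Q : MvPolynomial σ A, (∀ m, R m (P.coeff m) (Q.coeff m)) ∧ ∀ m, P.coeff m = 0 → Q.coeff m = 0 := by
  classical
  choose g hg using h
  have hc : ∀ m, (∑ m ∈ P.support, MvPolynomial.monomial m (g m)).coeff m = if m ∈ P.support then g m else 0 := by
    intro m
    rw [MvPolynomial.coeff_sum]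
    simp only [MvPolynomial.coeff_monomial]
    rw [Finset.sum_ite_eq' P.support m g]
  refine ⟨∑ m ∈ P.support, MvPolynomial.monomial m (g m), fun m => ?_, fun m hm => ?_⟩
  · rw [hc]
    split_ifs with h1
    · exact hg m
    · rw [MvPolynomial.notMem_support_iff.mp h1]
      exact h0 m
  · rw [hc, if_neg]
    rwa [MvPolynomial.notMem_support_iff]

/-- TRIANGULAR INVERSION with coefficients in a subring -/
theorem tri_solve [Fintype κ] (w : κ → ℝ) (L : Subring A) (P : κ → MvPolynomial (β ⊕ κ) A)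
    (hP : ∀ j, P j ∈ CS L) (hl : Lw w P) :
    ∃ G : κ → MvPolynomial (β ⊕ κ) A, (∀ j, G j ∈ CS L) ∧ (∀ j l, Sum.inr l ∈ (G j).vars → l = j ∨ w l < w j) ∧
      ∀ (x : β → A) (γ ρ : κ → A), (∀ j, ρ j = γ j + MvPolynomial.eval (Sum.elim x γ) (P j)) →
        ∀ j, γ j = MvPolynomial.eval (Sum.elim x ρ) (G j) := by
  classical
  obtain ⟨T, hT⟩ : ∃ T : (κ → MvPolynomial (β ⊕ κ) A) → κ → MvPolynomial (β ⊕ κ) A, ∀ G j, T G j =
      MvPolynomial.X (Sum.inr j) - MvPolynomial.aeval (Sum.elim (fun a => MvPolynomial.X (Sum.inl a)) G) (P j) :=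
    ⟨_, fun _ _ => rfl⟩
  obtain ⟨rk, hrk⟩ : ∃ rk : κ → ℕ, ∀ j, rk j = (univ.filter fun l => w l < w j).card := ⟨_, fun _ => rfl⟩
  have hrk_lt : ∀ l j, w l < w j → rk l < rk j := by
    intro l j h
    rw [hrk, hrk]
    apply Finset.card_lt_card
    rw [Finset.ssubset_iff_of_subset]
    · exact ⟨l, by rw [Finset.mem_filter]; exact ⟨Finset.mem_univ _, h⟩, by
        rw [Finset.mem_filter]
        exact fun h1 => lt_irrefl _ h1.2⟩
    · intro a ha
      rw [Finset.mem_filter] at ha ⊢
      exact ⟨ha.1, ha.2.trans h⟩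
  obtain ⟨G, hG⟩ : ∃ G : ℕ → κ → MvPolynomial (β ⊕ κ) A, G 0 = (fun j => MvPolynomial.X (Sum.inr j)) ∧
      ∀ n, G (n + 1) = T (G n) := ⟨fun n => T^[n] (fun j => MvPolynomial.X (Sum.inr j)), rfl, fun n =>
        Function.iterate_succ_apply' T n _⟩
  have h1 : ∀ n j, G n j ∈ CS L := by
    intro n
    induction n with
    | zero =>
      intro j
      rw [hG.1]
      exact CS_X L _
    | succ n ih =>
      intro j
      rw [hG.2, hT]
      refine (CS L).sub_mem (CS_X L _) (CS_aeval (hP j) ?_)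
      rintro (a | l)
      · exact CS_X L _
      · exact ih l
  have h2 : ∀ n j l, Sum.inr l ∈ (G n j).vars → l = j ∨ w l < w j := by
    intro n
    induction n with
    | zero =>
      intro j l h
      rw [hG.1] at h
      exact Or.inl (Sum.inr_injective (vars_X_mem h))
    | succ n ih =>
      intro j l h
      rw [hG.2, hT] at h
      rcases vars_sub_mem h with h | h
      · exact Or.inl (Sum.inr_injective (vars_X_mem h))
      · obtain ⟨a, ha, h3⟩ := vars_aeval_mem h
        rcases a with a | k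
        · rw [Sum.elim_inl] at h3
          exact absurd (vars_X_mem h3) Sum.inr_ne_inl
        · have h4 := hl j k ha
          rcases ih k l h3 with rfl | h5
          · exact Or.inr h4
          · exact Or.inr (h5.trans h4)
  refine ⟨G (Fintype.card κ), h1 _, h2 _, fun x γ ρ hρ => ?_⟩
  have h3 : ∀ n j, rk j < n → MvPolynomial.eval (Sum.elim x ρ) (G n j) = γ j := by
    intro n
    induction n with
    | zero => exact fun j h => absurd h (Nat.not_lt_zero _)
    | succ n ih =>
      intro j hj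
      rw [hG.2, hT, map_sub, MvPolynomial.eval_X, Sum.elim_inr, Pool.Agent.Helper57.TA.eval_sbs, hρ j]
      have h4 : MvPolynomial.eval (fun a => MvPolynomial.eval (Sum.elim x ρ)
          (Sum.elim (fun a => MvPolynomial.X (Sum.inl a)) (G n) a)) (P j) =
          MvPolynomial.eval (Sum.elim x γ) (P j) := by
        apply eval_vars
        rintro (a | l) hi
        · rw [Sum.elim_inl, MvPolynomial.eval_X, Sum.elim_inl, Sum.elim_inl]
        · rw [Sum.elim_inr, Sum.elim_inr]
          apply ih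
          have h5 := hrk_lt l j (hl j l hi)
          omega
      rw [h4, add_sub_cancel_right]
  intro j
  refine (h3 _ j ?_).symm
  rw [hrk]
  apply Finset.card_lt_univ_of_notMem (x := j)
  rw [Finset.mem_filter]
  exact fun h4 => lt_irrefl _ h4.2

end alg

end

end Pool.Agent.Helper69.HAT
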